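import Pool.Agent.H37.CNY.Stmts2
import Pool.Agent.H65.CNY.DIV

/-!
# Board `cny` (helper37), row DVW: the divisor theorem, semiregular version
-/

set_option autoImplicit false

namespace Pool.CND

theorem dvw_thm (hUPC : S_UPC) (hYT1 : S_YT1) (hNGD : S_NGD) : S_DVW := by
  intro p k G _ _ _ S a m r hp hk hS hpm hcard hz hr hC
  have hall : ∀ c ∈ Cond k G, ∃ y : ℤ, ((p ^ a * r : ℕ) : ℚ) * c = y := by
    intro c hc
    rcases hYT1 p k G hp hk c hc with h0 | ⟨W, I, C, hY⟩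
    · refine ⟨0, ?_⟩
      rw [h0]
      simp
    · obtain ⟨n, hpn, hcI⟩ := hY.cardI
      have hcomm : YC I C r := dvv_comm p W I C n r hp hY.WI hY.nrmW hcI hpn hY.cen
        (fun g hg hog => hC g C hog hY.ne hY.ea (hY.nrmC g hg) (hY.semi g hg))
      obtain ⟨s, y, hy⟩ := (hY.den r).1 hcomm
      obtain ⟨y', hy'⟩ := hUPC p k G S a m hp hk hS hpm hcard hz c hc
      exact dvv_int p m r a s c y' y hp hpm hy' hy
  exact ⟨hall, hNGD k G (p ^ a * r) (Nat.mul_pos (pow_pos hp.pos a) hr) hall⟩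

end Pool.CND
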