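import Pool.Agent.H90.CNY.Stmts

set_option autoImplicit false

namespace Pool.CND

open Finset

/-- conjugation by `g` on `C ∖ 1` -/
theorem ysr_perm {G : Type} [Group G] [Finite G] (C : Subgroup G) (g : G)
    (h : ∀ w ∈ C, g * w * g⁻¹ ∈ C) : ∃ σ : Equiv.Perm {w : G // w ∈ C ∧ w ≠ 1},
      ∀ (j : ℕ) (w : {w : G // w ∈ C ∧ w ≠ 1}), (((σ ^ j) w : {w : G // w ∈ C ∧ w ≠ 1}) : G) =
        g ^ j * w.1 * (g ^ j)⁻¹ := by
  let f : {w : G // w ∈ C ∧ w ≠ 1} → {w : G // w ∈ C ∧ w ≠ 1} := fun w =>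
    ⟨g * w.1 * g⁻¹, h w.1 w.2.1, fun hw => w.2.2 (conj_eq_one_iff.1 hw)⟩
  have hf : Function.Injective f := by
    intro w w' hww
    have h1 : g * w.1 * g⁻¹ = g * w'.1 * g⁻¹ := congrArg Subtype.val hww
    exact Subtype.ext (mul_left_cancel (mul_right_cancel h1))
  refine ⟨Equiv.ofBijective f (Finite.injective_iff_bijective.1 hf), ?_⟩
  intro j
  induction j with
  | zero => intro w; simp
  | succ j ih =>
    intro w
    rw [pow_succ', Equiv.Perm.mul_apply]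
    have h2 : ((Equiv.ofBijective f (Finite.injective_iff_bijective.1 hf)
        ((Equiv.ofBijective f (Finite.injective_iff_bijective.1 hf) ^ j) w) :
          {w : G // w ∈ C ∧ w ≠ 1}) : G) =
        g * (((Equiv.ofBijective f (Finite.injective_iff_bijective.1 hf) ^ j) w :
          {w : G // w ∈ C ∧ w ≠ 1}) : G) * g⁻¹ := rfl
    rw [h2, ih w, pow_succ' g]
    group

theorem ysr_card {G : Type} [Group G] [Finite G] (C : Subgroup G) :
    Nat.card {w : G // w ∈ C ∧ w ≠ 1} = Nat.card C - 1 := by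
  have h1 : Nat.card {w : G // w ∈ C ∧ w ≠ 1} = ((C : Set G) \ {1}).ncard := by
    rw [← Nat.card_coe_set_eq]
    rfl
  rw [h1, Set.ncard_sdiff_singleton_of_mem (s := (C : Set G)) C.one_mem, ← Nat.card_coe_set_eq]
  rfl

theorem ysr_thm (hYPM : S_YPM) : S_YSR := by
  intro G _ _ C g h _ hs
  have : Fintype {w : G // w ∈ C ∧ w ≠ 1} := Fintype.ofFinite _
  obtain ⟨σ, hσ⟩ := ysr_perm C g h
  have hcomm : ∀ (j : ℕ) (w : {w : G // w ∈ C ∧ w ≠ 1}), (σ ^ j) w = w ↔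
      g ^ j * w.1 = w.1 * g ^ j := by
    intro j w
    rw [← Subtype.coe_inj, hσ, mul_inv_eq_iff_eq_mul]
  have h1 : orderOf σ ∣ Fintype.card {w : G // w ∈ C ∧ w ≠ 1} := by
    refine hYPM _ σ _ fun j x hx => orderOf_dvd_of_pow_eq_one ?_
    have h2 := hs j ⟨x.1, x.2.1, x.2.2, (hcomm j x).1 hx⟩
    ext w
    rw [(hcomm j w).2 (h2 w.1 w.2.1)]
    rfl
  rw [← Nat.card_eq_fintype_card, ysr_card C] at h1
  have h3 := orderOf_dvd_iff_pow_eq_one.1 h1
  intro w hw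
  by_cases hw1 : w = 1
  · rw [hw1, mul_one, one_mul]
  · have h4 := (hcomm (Nat.card C - 1) ⟨w, hw, hw1⟩).1 (by rw [h3]; rfl)
    exact h4

end Pool.CND
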